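import Pool.Agent.Lib.FBC.RH.Core
import Pool.Agent.Lib.FBC.EM
import Pool.Agent.Lib.FBC.Blue0

/-!
The periodic case, and the reduction of the full statement.
-/

namespace Pool.Agent.Lib.FBC.RH

open SimpleGraph SemidirectProduct
open Pool.Agent.Lib.MP_288210_al (LERF)

variable {G : Type} [Group G] {d : Dg G}

theorem wordHyp_of_bij (hs : Function.Surjective d) (hi : d.ker = ⊥) : WordHyp G := by
  obtain ⟨t, ht⟩ := hs (Multiplicative.ofAdd 1)
  have inj : ∀ {a b : G}, dg d a = dg d b → a = b := fun h ↦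
    (MonoidHom.ker_eq_bot_iff d).1 hi (Multiplicative.toAdd.injective h)
  have dm : ∀ a b : G, dg d (a * b) = dg d a + dg d b := fun a b ↦ by simp [dg]
  have dt : dg d t = 1 := by simp [dg, ht]
  set K := mulCayley (({t} : Finset G) : Set G) with hK
  have adj : ∀ {a b : G}, K.Adj a b ↔ dg d a + 1 = dg d b ∨ dg d a = dg d b + 1 := fun {a b} ↦ by
    simp only [hK, mulCayley_adj', Finset.coe_singleton, Set.mem_singleton_iff, exists_eq_left]
    refine ⟨?_, fun h ↦ ⟨?_, h.imp (fun h ↦ inj ?_) fun h ↦ inj ?_⟩⟩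
    · rintro ⟨-, rfl | rfl⟩ <;> simp [dm, dt]
    · rintro rfl; omega
    all_goals rw [dm, dt, h]
  have up : ∀ (n : ℕ) (a b : G), dg d b = dg d a + n → ∃ p : K.Walk a b, p.length = n := fun n ↦ by
    induction n with
    | zero => exact fun a b h ↦ by obtain rfl : b = a := inj (by simpa using h); exact ⟨.nil, rfl⟩
    | succ n ih =>
      intro a b h
      obtain ⟨p, hp⟩ := ih (a * t) b (by rw [dm, dt, h]; push_cast; ring)
      exact ⟨.cons (adj.2 (Or.inl (by rw [dm, dt]))) p, by simp [hp]⟩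
  have ex : ∀ a b : G, ∃ p : K.Walk a b, p.length = (dg d b - dg d a).natAbs := fun a b ↦ by
    rcases le_total (dg d a) (dg d b) with h | h
    · exact up _ a b (by omega)
    · obtain ⟨p, hp⟩ := up (dg d b - dg d a).natAbs b a (by omega)
      exact ⟨p.reverse, by simp [hp]⟩
  have lo : ∀ {a b : G} (p : K.Walk a b), (dg d b - dg d a).natAbs ≤ p.length := fun p ↦ by
    induction p with
    | nil => simp
    | cons h p ih => have := adj.1 h; rw [Walk.length_cons]; omega
  have hc : K.Connected := ⟨fun a b ↦ ⟨(ex a b).choose⟩⟩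
  have ds : ∀ a b : G, K.dist a b = (dg d b - dg d a).natAbs := fun a b ↦ by
    obtain ⟨p, hp⟩ := ex a b
    obtain ⟨q, hq⟩ := hc.exists_walk_length_eq_dist a b
    exact (hp ▸ dist_le p).antisymm (hq ▸ lo q)
  refine ⟨{t}, eq_top_iff.2 fun g _ ↦ ?_, hc, 0, fun x y z w ↦ by simp only [← hK, ds]; omega⟩
  rw [inj (a := g) (b := t ^ dg d g) (by simp [dg, ht])]
  exact Subgroup.zpow_mem _ (Subgroup.subset_closure (by simp)) _

/-- the periodic case -/
theorem stRH (h : FC d) (hp : Per d) (hr : RelHyp G) : WordHyp G := by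
  by_cases e : d.ker = ⊥
  · exact wordHyp_of_bij h.surj e
  obtain ⟨z, z0, hz⟩ := hp
  obtain ⟨⟨x, hx⟩, x1⟩ := Subgroup.ne_bot_iff_exists_ne_one.1 e
  have x1 : x ≠ 1 := fun h ↦ x1 (Subtype.ext h)
  have fi : ((Subgroup.zpowers (d z)).comap d).FiniteIndex := ⟨by
    rw [Subgroup.index_comap_of_surjective _ h.surj]
    exact fun k ↦ z0 (by simpa using (Int.index_zmultiples (dg d z)).symm.trans k)⟩
  refine (not_relHyp ((Subgroup.zpowers (d z)).comap d) (x := x) (z := z)
    (Subgroup.mem_zpowers _) (by simp [MonoidHom.mem_ker.1 hx]) ?_ (fun i j k ↦ ?_) hr).elim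
  · rintro c ⟨j, (hj : d z ^ j = d c)⟩
    have := hz (c * (z ^ j)⁻¹) (by simp [MonoidHom.mem_ker, hj])
    have k : Commute c z := by
      simpa using (Commute.symm this).mul_left ((Commute.refl z).zpow_left j)
    exact k.eq
  · have h1 := congrArg (dg d) k
    simp only [dg, map_mul, map_zpow, MonoidHom.mem_ker.1 hx, one_zpow, one_mul, toAdd_zpow,
      map_one, toAdd_one, smul_eq_mul, mul_eq_zero] at h1
    obtain rfl : j = 0 := h1.resolve_right z0
    refine ⟨by_contra fun i0 ↦ x1 (h.torsionFree (Int.natAbs_pos.2 i0) ?_), rfl⟩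
    rw [zpow_zero, mul_one] at k
    exact pow_natAbs_eq_one.2 k

/-- hyperbolization in the surface case -/
def St_THU : Prop := ∀ (G : Type) [Group G] (d : Dg G), FC d → ¬Per d → Surf d → Hyp3 G

/-- the full statement -/
theorem full_of (hM : St_MAIN) (hT : St_THU) (G : Type) [Group G] (n : ℕ)
    (φ : MulAut (FreeGroup (Fin n)))
    (e : G ≃* FreeGroup (Fin n) ⋊[zpowersHom (MulAut (FreeGroup (Fin n))) φ] Multiplicative ℤ)
    (h1 : LERF G) (h2 : RelHyp G) (h3 : ¬WordHyp G) : Hyp3 G := by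
  let d : Dg G := rightHom.comp e.toMonoidHom
  let k : FreeGroup (Fin n) ≃* d.ker :=
    ((MonoidHom.ofInjective inl_injective).trans (MulEquiv.subgroupCongr
      range_inl_eq_ker_rightHom)).trans ((e.symm.subgroupMap _).trans (MulEquiv.subgroupCongr (by
        rw [← MonoidHom.comap_ker]; exact Subgroup.map_equiv_eq_comap_symm' ..)))
  have fc : FC d := ⟨rightHom_surjective.comp e.surjective, IsFreeGroup.ofMulEquiv k,
    (Group.fg_iff_subgroup_fg _).1 (Group.fg_of_surjective (f := k.toMonoidHom) k.surjective), h1⟩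
  have np : ¬Per d := fun hp ↦ h3 (stRH fc hp h2)
  exact hT G d fc np ((hM G d fc).resolve_left np).1

end Pool.Agent.Lib.FBC.RH
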