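import Pool.Agent.Lib.FBC.RH.Defs

/-!
From Moebius and anti-Moebius matrices to the Lorentz group: the statement.
-/

namespace Pool.Agent.Lib.FBC.RH

/-- entrywise complex conjugation, or the identity -/
def cj (b : Bool) (A : Matrix (Fin 2) (Fin 2) ℂ) : Matrix (Fin 2) (Fin 2) ℂ :=
  cond b (A.map (starRingEnd ℂ)) A

/-- a discrete faithful representation by Moebius and anti-Moebius maps gives a hyperbolic
3-manifold group -/
def St_LOR : Prop := ∀ (G : Type) [Group G], (∀ (g : G) (n : ℕ), 0 < n → g ^ n = 1 → g = 1) →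
  ∀ (A : G → Matrix (Fin 2) (Fin 2) ℂ) (b : G → Bool), (∀ g, (A g).det = 1) →
  (∀ g h, b (g * h) = xor (b g) (b h)) →
  (∀ g h, A (g * h) = A g * cj (b g) (A h) ∨ A (g * h) = -(A g * cj (b g) (A h))) →
  (∃ ε > 0, ∀ g, b g = false → (∀ i j, ‖A g i j - (1 : Matrix (Fin 2) (Fin 2) ℂ) i j‖ < ε) ∨
    (∀ i j, ‖A g i j + (1 : Matrix (Fin 2) (Fin 2) ℂ) i j‖ < ε) → g = 1) → Hyp3 G

end Pool.Agent.Lib.FBC.RH
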