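import Pool.Agent.Lib.FBC.RH.Defs

/-!
A group with a central element of infinite order in a normal subgroup of finite index that
contains `ℤ × ℤ` is not hyperbolic relative to proper subgroups.
-/

namespace Pool.Agent.Lib.FBC.RH

open MulAction SimpleGraph

variable {G V : Type} [Group G] [MulAction G V] {K : SimpleGraph V}

/-- a walk of bounded length that avoids `u` -/
def Av (K : SimpleGraph V) (u a b : V) (n : ℕ) : Prop :=
  ∃ p : K.Walk a b, p.length ≤ n ∧ u ∉ p.support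

theorem Av.trans {u a b c : V} {n m : ℕ} (h : Av K u a b n) (k : Av K u b c m) :
    Av K u a c (n + m) := by
  obtain ⟨p, h1, h2⟩ := h
  obtain ⟨q, k1, k2⟩ := k
  exact ⟨p.append q, by rw [Walk.length_append]; omega, by simp [Walk.mem_support_append_iff, *]⟩

theorem Av.symm {u a b : V} {n : ℕ} (h : Av K u a b n) : Av K u b a n :=
  let ⟨p, h1, h2⟩ := h
  ⟨p.reverse, by simpa using h1, by simpa using h2⟩

theorem Fine.link (hF : Fine K) (u b : V) (n : ℕ) : {a | K.Adj u a ∧ Av K u a b n}.Finite := by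
  classical
  rcases {a | K.Adj u a ∧ Av K u a b n}.eq_empty_or_nonempty with e | ⟨a0, h0, k0⟩
  · rw [e]; exact Set.finite_empty
  refine (((Set.finite_le_nat (n + n + 2)).biUnion fun m _ ↦ (hF u a0 h0 m).biUnion
    fun c _ ↦ c.support.finite_toSet).insert a0).subset fun a ⟨h1, k1⟩ ↦ ?_
  by_cases e : a = a0
  · exact Or.inl e
  obtain ⟨p, l, s⟩ := k0.trans k1.symm
  have s' : u ∉ p.bypass.support := fun h ↦ s (p.support_bypass_subset_support h)
  have := p.length_bypass_le_length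
  refine Or.inr (Set.mem_biUnion (x := p.bypass.length + 2) (by simp; omega)
    (Set.mem_biUnion (x := Walk.cons h0 (p.bypass.concat h1.symm)) ⟨?_, by simp, by simp⟩
      (by simp)))
  rw [Walk.cons_isCycle_iff]
  refine ⟨p.bypass_isPath.concat s' _, fun h ↦ ?_⟩
  rw [Walk.edges_concat, List.concat_eq_append, List.mem_append, List.mem_singleton] at h
  rcases h with h | h
  · exact s' (Walk.fst_mem_support_of_mem_edges _ h)
  · rcases Sym2.eq_iff.1 h with h | h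
    exacts [h1.ne h.1, e h.2.symm]

theorem first_step (hc : K.Connected) {u y : V} (h : u ≠ y) :
    ∃ a, K.Adj u a ∧ K.dist a y + 1 ≤ K.dist u y ∧ Av K u a y (K.dist u y) := by
  obtain ⟨p, h1, h2⟩ := hc.exists_path_of_dist u y
  cases p with
  | nil => exact absurd rfl h
  | cons e p =>
    rw [Walk.length_cons] at h2
    exact ⟨_, e, by have := dist_le p; omega, p, by omega, ((Walk.cons_isPath_iff _ _).1 h1).2⟩

theorem mid (hc : K.Connected) (y : V) : ∀ (i : ℕ) (v : V), i ≤ K.dist v y →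
    ∃ p, K.dist v p ≤ i ∧ K.dist p y + i ≤ K.dist v y
  | 0, v, _ => ⟨v, by simp, le_rfl⟩
  | i + 1, v, h => by
    obtain ⟨a, h1, h2, -⟩ := first_step hc (u := v) (y := y) (by rintro rfl; simp at h)
    have h3 := dist_eq_one_iff_adj.2 h1
    have h4 := hc.dist_triangle (u := v) (v := a) (w := y)
    obtain ⟨p, p1, p2⟩ := mid hc y i a (by omega)
    have h5 := hc.dist_triangle (u := v) (v := a) (w := p)
    exact ⟨p, by omega, by omega⟩

theorem dist_lt_of_mem {a b u : V} (p : K.Walk a b) (h : u ∈ p.support) (e : u ≠ b) :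
    K.dist a u + 1 ≤ p.length := by
  classical
  exact (dist_le _).trans_lt (p.length_takeUntil_lt_length h e)

section

variable (hA : ∀ (g : G) a b, K.Adj a b → K.Adj (g • a) (g • b))
include hA

/-- the action as a graph homomorphism -/
def act (g : G) : K →g K := ⟨(g • ·), fun h ↦ hA g _ _ h⟩

theorem walk_smul (g : G) {a b : V} (p : K.Walk a b) : ∃ q : K.Walk (g • a) (g • b),
    q.length = p.length ∧ ∀ u ∈ q.support, ∃ w ∈ p.support, g • w = u :=
  ⟨p.map (act hA g), p.length_map _, fun _ h ↦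
    List.mem_map.1 ((p.support_map (act hA g)).subst h)⟩

theorem Av.smul (g : G) {u a b : V} {n : ℕ} (h : Av K u a b n) :
    Av K (g • u) (g • a) (g • b) n := by
  obtain ⟨p, h1, h2⟩ := h
  obtain ⟨q, q1, q2⟩ := walk_smul hA g p
  refine ⟨q, q1 ▸ h1, fun h ↦ ?_⟩
  obtain ⟨w, w1, w2⟩ := q2 _ h
  exact h2 (smul_left_cancel g w2 ▸ w1)

theorem dist_smul (hc : K.Connected) (g : G) (a b : V) : K.dist (g • a) (g • b) = K.dist a b := by
  have : ∀ (g : G) a b, K.dist (g • a) (g • b) ≤ K.dist a b := fun g a b ↦ by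
    obtain ⟨p, h⟩ := hc.exists_walk_length_eq_dist a b
    obtain ⟨q, q1, -⟩ := walk_smul hA g p
    exact (dist_le q).trans (q1.trans h).le
  exact (this g a b).antisymm (by simpa using this g⁻¹ (g • a) (g • b))

theorem two_fix (hc : K.Connected) (hF : Fine K)
    (hE : ∀ a b, K.Adj a b → {g : G | s(g • a, g • b) = s(a, b)}.Finite) {g : G}
    (hg : ¬IsOfFinOrder g) {u b : V} (h1 : g • u = u) (h2 : g • b = b) : u = b := by
  by_contra h
  obtain ⟨a, a1, -, a2⟩ := first_step hc h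
  have f : ∀ a' : V, {k : G | k • u = u ∧ k • a = a'}.Finite := fun a' ↦ by
    rcases {k : G | k • u = u ∧ k • a = a'}.eq_empty_or_nonempty with e | ⟨k0, k1, k2⟩
    · rw [e]; exact Set.finite_empty
    refine ((hE u a a1).image (k0 * ·)).subset fun k ⟨k3, k4⟩ ↦ ⟨k0⁻¹ * k, ?_, by simp⟩
    rw [Set.mem_ofPred, mul_smul, mul_smul, k3, k4, inv_smul_eq_iff.2 k1.symm,
      inv_smul_eq_iff.2 k2.symm]
  refine Set.infinite_range_of_injective (injective_pow_iff_not_isOfFinOrder.2 hg)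
    (((hF.link u b (K.dist u b)).biUnion fun a' _ ↦ f a').subset ?_)
  rintro _ ⟨n, rfl⟩
  have e1 : g ^ n • u = u := (stabilizer G u).pow_mem h1 n
  have e2 : g ^ n • b = b := (stabilizer G b).pow_mem h2 n
  have e3 := hA (g ^ n) _ _ a1
  have e4 := a2.smul hA (g ^ n)
  rw [e1] at e3
  rw [e1, e2] at e4
  exact Set.mem_biUnion (x := g ^ n • a) ⟨e3, e4⟩ ⟨e1, rfl⟩

theorem proper (hc : K.Connected) (hF : Fine K) {A : Subgroup G} {z : G} (hz : z ∈ A) (h1 : z ≠ 1)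
    (cm : ∀ g ∈ A, g * z = z * g) (fr : ∀ g ∈ A, ∀ v : V, g • v = v → g = 1) (v : V) :
    ∀ (r : ℕ) (u : V), {g | g ∈ A ∧ K.dist u (g • v) ≤ r}.Finite := by
  have f : ∀ w u : V, {g | g ∈ A ∧ g • w = u}.Finite := fun w u ↦
    Set.Subsingleton.finite fun g ⟨g1, g2⟩ k ⟨k1, k2⟩ ↦ (inv_mul_eq_one.1 (fr _
      (A.mul_mem (A.inv_mem g1) k1) w (by rw [mul_smul, k2, inv_smul_eq_iff, g2])))
  intro r
  induction r with
  | zero => exact fun u ↦ (f v u).subset fun g ⟨g1, g2⟩ ↦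
      ⟨g1, (hc.dist_eq_zero_iff.1 (Nat.le_zero.1 g2)).symm⟩
  | succ r ih =>
    intro u
    obtain ⟨γ⟩ := hc v (z • v)
    have uz : u ≠ z • u := fun h ↦ h1 (fr z hz u h.symm)
    refine ((((ih u).union (γ.support.finite_toSet.biUnion fun w _ ↦ f w u)).union
      ((ih u).preimage (mul_right_injective z).injOn)).union
      ((hF.link u (z • u) (r + 1 + γ.length + (r + 1))).biUnion fun a _ ↦ ih a)).subset
      fun g ⟨g1, g2⟩ ↦ ?_
    by_contra hn
    simp only [Set.mem_union, not_or, Set.mem_ofPred, Set.mem_iUnion, Set.mem_preimage, not_exists,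
      not_and, not_le] at hn
    obtain ⟨⟨⟨n0, n1⟩, n2⟩, n3⟩ := hn
    obtain ⟨a, a1, a2, p, a3, a4⟩ := first_step hc (u := u) (y := g • v) (fun h ↦ by
      have := n0 g1; rw [← h] at this; simp at this)
    obtain ⟨q, q1, q2⟩ := walk_smul hA g γ
    obtain ⟨s, s0⟩ := hc.exists_walk_length_eq_dist (g • v) u
    obtain ⟨t, t1, -⟩ := walk_smul hA z s
    have b1 : Av K u a (g • v) (r + 1) := ⟨p, a3.trans g2, a4⟩
    have b2 : Av K u (g • v) (g • z • v) γ.length := ⟨q, q1.le, fun h ↦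
      let ⟨w, w1, w2⟩ := q2 u h; n1 w w1 g1 w2⟩
    have b3 : Av K u (z • g • v) (z • u) (r + 1) := ⟨t, by rw [t1, s0, dist_comm]; exact g2,
      fun h ↦ by
        have c1 := dist_lt_of_mem t h uz
        have c2 := n2 (A.mul_mem hz g1)
        rw [t1, s0, dist_comm, dist_comm (v := u)] at c1
        rw [mul_smul] at c2
        omega⟩
    rw [← mul_smul, cm g g1, mul_smul] at b2
    have := n3 a ⟨a1, (b1.trans b2).trans b3⟩ g1
    omega

theorem quad (hc : K.Connected) {δ M : ℕ} (hδ : ∀ x y z w : V, K.dist x y + K.dist z w ≤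
    max (K.dist x z + K.dist y w) (K.dist x w + K.dist y z) + δ) (h : G)
    (hM : ∀ p : V, K.dist p (h • p) ≤ M) {v y : V} (h1 : K.dist v y ≤ K.dist v (h • y))
    (h2 : K.dist v y ≤ K.dist y (h • v)) (h3 : 2 * M ≤ K.dist v y) :
    ∃ p : V, K.dist p (h • p) ≤ 3 * δ := by
  obtain ⟨p, p1, p2⟩ := mid hc y M v (by omega)
  have t := hc.dist_triangle (u := v) (v := p) (w := y)
  have a1 := hδ p (h • p) v y
  have a2 := hδ v (h • p) (h • v) (h • y)
  have a3 := hδ y (h • p) (h • y) (h • v)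
  have a4 := hδ v (h • y) (h • v) y
  have m1 := hM v
  have m2 := hM y
  simp only [dist_smul hA hc] at a2 a3 a4
  rw [dist_comm (u := p) (v := v), dist_comm (u := h • p), dist_comm (u := h • p)] at a1
  rw [dist_comm (u := p) (v := v)] at a2 a3
  rw [dist_comm (u := y) (v := v)] at a3 a4
  rw [dist_comm (u := h • v), dist_comm (u := h • y)] at a4
  exact ⟨p, by omega⟩

end

theorem not_relHyp (C : Subgroup G) [hN : C.Normal] [C.FiniteIndex] {x z : G} (hz : z ∈ C)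
    (hx : x ∈ C) (cm : ∀ c ∈ C, c * z = z * c)
    (ind : ∀ i j : ℤ, x ^ i * z ^ j = 1 → i = 0 ∧ j = 0) : ¬RelHyp G := by
  classical
  rintro ⟨P, -, hP, V, _, K, hA, ⟨hc, δ, hδ⟩, hF, hE, ⟨T0, hT⟩, hS, -⟩
  have xz : Commute x z := cm x hx
  have ml : ∀ i j k l : ℤ, x ^ i * z ^ j * (x ^ k * z ^ l) = x ^ (i + k) * z ^ (j + l) :=
    fun i j k l ↦ by
      rw [zpow_add, zpow_add]; exact (xz.symm.zpow_zpow j k).mul_mul_mul_comm _ _
  have iv : ∀ i j : ℤ, (x ^ i * z ^ j)⁻¹ = x ^ (-i) * z ^ (-j) := fun i j ↦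
    inv_eq_of_mul_eq_one_right (by rw [ml]; simp)
  have inj : ∀ i j k l : ℤ, x ^ i * z ^ j = x ^ k * z ^ l → i = k ∧ j = l := fun i j k l h ↦ by
    have := ind (i + -k) (j + -l) (by rw [← ml, ← iv, h, mul_inv_cancel])
    omega
  let A : Subgroup G := ⟨⟨⟨{g | ∃ i j : ℤ, g = x ^ i * z ^ j},
    by rintro _ _ ⟨i, j, rfl⟩ ⟨k, l, rfl⟩; exact ⟨_, _, ml ..⟩⟩, 0, 0, by simp⟩,
    by rintro _ ⟨i, j, rfl⟩; exact ⟨_, _, iv ..⟩⟩
  have AC : ∀ g ∈ A, g ∈ C := by
    rintro _ ⟨i, j, rfl⟩; exact C.mul_mem (C.zpow_mem hx i) (C.zpow_mem hz j)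
  have zA : z ∈ A := ⟨0, 1, by simp⟩
  have tf : ∀ g ∈ A, IsOfFinOrder g → g = 1 := by
    rintro _ ⟨i, j, rfl⟩ h
    obtain ⟨n, n0, h⟩ := isOfFinOrder_iff_pow_eq_one.1 h
    rw [(xz.zpow_zpow i j).mul_pow, ← zpow_natCast, ← zpow_natCast, ← zpow_mul, ← zpow_mul] at h
    obtain ⟨h1, h2⟩ := ind _ _ h
    have : (n : ℤ) ≠ 0 := by omega
    simp [(mul_eq_zero.1 h1).resolve_right this, (mul_eq_zero.1 h2).resolve_right this]
  have z1 : z ≠ 1 := fun h ↦ by simpa using (ind 0 1 (by simp [h])).2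
  have zi : ¬IsOfFinOrder z := fun h ↦ z1 (tf z zA h)
  by_cases fr : ∀ g ∈ A, ∀ v : V, g • v = v → g = 1
  swap
  · push Not at fr
    obtain ⟨g, gA, v, h1, h2⟩ := fr
    have e1 : z • v = v := two_fix hA hc hF hE (fun h ↦ h2 (tf g gA h))
      (by rw [← mul_smul, cm g (AC g gA), mul_smul, h1]) h1
    have e2 : ∀ c ∈ C, c • v = v := fun c h ↦ two_fix hA hc hF hE zi
      (by rw [← mul_smul, ← cm c h, mul_smul, e1]) e1
    have e3 : ∀ g : G, g • v = v := fun g ↦ two_fix hA hc hF hE zi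
      (inv_smul_eq_iff.1 (by simpa [mul_smul] using e2 _ (hN.conj_mem' z hz g))) e1
    obtain ⟨g, h⟩ := hS v (.of_injective
      (fun n : ℕ ↦ (⟨z ^ n, e3 _⟩ : stabilizer G v)) fun a b h ↦
        injective_pow_iff_not_isOfFinOrder.2 zi (congrArg Subtype.val h))
    exact hP _ h (by rw [e3, eq_top_iff]; exact fun g _ ↦ e3 g)
  have pr := proper hA hc hF zA z1 (fun g h ↦ cm g (AC g h)) fr
  obtain ⟨T, Tf, hT⟩ : ∃ T : Set V, T.Finite ∧ ∀ v, ∃ c ∈ C, ∃ t ∈ T, v = c • t := by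
    refine ⟨_, ((Set.finite_univ (α := G ⧸ C)).prod T0.finite_toSet).image
      fun p ↦ p.1.out • p.2.1, fun v ↦ ?_⟩
    obtain ⟨a, a1, -⟩ := first_step hc (u := v) (y := z • v) fun h ↦ z1 (fr z zA v h.symm)
    obtain ⟨g, h⟩ := hT v a a1
    obtain ⟨c, e⟩ := QuotientGroup.mk_out_eq_mul C g⁻¹
    refine ⟨g⁻¹ * c⁻¹ * g, hN.conj_mem' _ (C.inv_mem c.2) g, _,
      ⟨(QuotientGroup.mk g⁻¹, _), ⟨trivial, h⟩, rfl⟩, ?_⟩
    simp only [e]; simp [mul_smul]
  have ds : ∀ (j : ℤ) (v : V), ∃ t ∈ T, K.dist v (z ^ j • v) = K.dist t (z ^ j • t) := fun j v ↦ by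
    obtain ⟨c, c1, t, t1, rfl⟩ := hT v
    exact ⟨t, t1, by
      rw [← mul_smul, ← (Commute.zpow_right (cm c c1) j).eq, mul_smul, dist_smul hA hc]⟩
  obtain ⟨_, ⟨j, rfl⟩, hj⟩ := (Set.infinite_range_of_injective
    (injective_zpow_iff_not_isOfFinOrder.2 zi)).exists_notMem_finite
    (Tf.biUnion fun t _ ↦ pr t (3 * δ) t)
  obtain ⟨M, hM⟩ := (Tf.image fun t ↦ K.dist t (z ^ j • t)).bddAbove
  have b1 : ∀ p : V, K.dist p (z ^ j • p) ≤ M := fun p ↦ by
    obtain ⟨t, t1, e⟩ := ds j p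
    exact e ▸ hM ⟨t, t1, rfl⟩
  obtain ⟨v⟩ := hc.nonempty
  have b2 : ∀ i : ℤ, ∃ n : ℤ, K.dist v ((x ^ i * z ^ n) • v) ≤ 2 * M := fun i ↦ by
    obtain ⟨n, hn⟩ := exists_minimalFor_of_wellFoundedLT (fun _ ↦ True)
      (fun n : ℤ ↦ K.dist v ((x ^ i * z ^ n) • v)) ⟨0, trivial⟩
    have hn : ∀ m : ℤ, K.dist v ((x ^ i * z ^ n) • v) ≤ K.dist v ((x ^ i * z ^ m) • v) :=
      fun m ↦ hn.le trivial
    have e : ∀ m : ℤ, z ^ m • (x ^ i * z ^ n) • v = (x ^ i * z ^ (m + n)) • v := fun m ↦ by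
      simpa [← mul_smul] using congrArg (· • v) (ml 0 m i n)
    refine ⟨n, le_of_not_ge fun h ↦ ?_⟩
    obtain ⟨p, hp⟩ := quad hA hc hδ (z ^ j) b1 (e j ▸ hn _) (by
      rw [← dist_smul hA hc (z ^ (-j)) _ (z ^ j • v), e, dist_comm (v := z ^ (-j) • _)]
      simpa using hn _) h
    obtain ⟨t, t1, e⟩ := ds j p
    exact hj (Set.mem_biUnion t1 ⟨A.zpow_mem zA j, e ▸ hp⟩)
  choose n hn using b2
  exact Set.infinite_range_of_injective (f := fun i ↦ x ^ i * z ^ n i)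
    (fun a b h ↦ (inj _ _ _ _ h).1) ((pr v (2 * M) v).subset (by
      rintro _ ⟨i, rfl⟩; exact ⟨⟨_, _, rfl⟩, hn i⟩))

end Pool.Agent.Lib.FBC.RH
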