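import Mathlib

/-!
Hyperbolic groups, relatively hyperbolic groups, groups of hyperbolic 3-manifolds.
-/

namespace Pool.Agent.Lib.FBC.RH

open MulAction Matrix

/-- a connected graph whose path metric satisfies Gromov's four point condition -/
def HypGraph {V : Type} (K : SimpleGraph V) : Prop :=
  K.Connected ∧ ∃ δ : ℕ, ∀ x y z w : V, K.dist x y + K.dist z w ≤
    max (K.dist x z + K.dist y w) (K.dist x w + K.dist y z) + δ

/-- every edge lies in finitely many circuits of each length -/
def Fine {V : Type} (K : SimpleGraph V) : Prop :=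
  ∀ u a, K.Adj u a → ∀ n : ℕ,
    {c : K.Walk u u | c.IsCycle ∧ c.length = n ∧ s(u, a) ∈ c.edges}.Finite

/-- word-hyperbolic groups -/
def WordHyp (G : Type) [Group G] : Prop :=
  ∃ S : Finset G, Subgroup.closure (S : Set G) = ⊤ ∧ HypGraph (SimpleGraph.mulCayley (S : Set G))

/-- Bowditch: `G` acts on a fine hyperbolic graph with finite edge stabilizers and finitely many
orbits of edges, and the infinite members of `P` represent the infinite vertex stabilizers -/
def RelHypTo (G : Type) [Group G] (P : Set (Subgroup G)) : Prop :=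
  ∃ (V : Type) (_ : MulAction G V) (K : SimpleGraph V),
    (∀ (g : G) a b, K.Adj a b → K.Adj (g • a) (g • b)) ∧ HypGraph K ∧ Fine K ∧
    (∀ a b, K.Adj a b → {g : G | s(g • a, g • b) = s(a, b)}.Finite) ∧
    (∃ T : Finset (V × V), ∀ a b, K.Adj a b → ∃ g : G, (g • a, g • b) ∈ T) ∧
    (∀ v : V, Infinite (stabilizer G v) → ∃ g : G, stabilizer G (g • v) ∈ P) ∧
    ∀ H ∈ P, Infinite H → ∃ v : V, stabilizer G v = H

/-- hyperbolic relative to a finite collection of proper subgroups -/
def RelHyp (G : Type) [Group G] : Prop :=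
  ∃ P : Set (Subgroup G), P.Finite ∧ (∀ H ∈ P, H ≠ ⊤) ∧ RelHypTo G P

/-- the Lorentz form of signature `(-, +, +, +)` -/
def lorJ : Matrix (Fin 4) (Fin 4) ℝ := diagonal ![-1, 1, 1, 1]

/-- `G` is isomorphic to a torsion-free discrete subgroup of the positive Lorentz group, the
isometry group of the hyperboloid model of hyperbolic 3-space -/
def Hyp3 (G : Type) [Group G] : Prop :=
  ∃ Γ : Subgroup (GL (Fin 4) ℝ),
    (∀ A ∈ Γ, (A : Matrix (Fin 4) (Fin 4) ℝ)ᵀ * lorJ * A = lorJ ∧ 0 < A 0 0) ∧
    DiscreteTopology Γ ∧ (∀ A ∈ Γ, IsOfFinOrder A → A = 1) ∧ Nonempty (G ≃* Γ)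

end Pool.Agent.Lib.FBC.RH
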