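import Pool.Agent.Lib.FBC.RH.Blue

/-!
From Moebius and anti-Moebius matrices to the Lorentz group.
-/

namespace Pool.Agent.Lib.FBC.RH

open Matrix

/-- the matrix of `H ↦ A H A^*` on hermitian matrices, in real coordinates -/
noncomputable def lorR (a p b q c r d s : ℝ) : Matrix (Fin 4) (Fin 4) ℝ :=
  !![(a * a + p * p + b * b + q * q + c * c + r * r + d * d + s * s) / 2,
      a * b + p * q + c * d + r * s, -(p * b - a * q + r * d - c * s),
      (a * a + p * p - b * b - q * q + c * c + r * r - d * d - s * s) / 2;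
    a * c + p * r + b * d + q * s, a * d + p * s + b * c + q * r,
      -(p * d - a * s - q * c + b * r), a * c + p * r - b * d - q * s;
    p * c - a * r + q * d - b * s, p * d - a * s + q * c - b * r,
      a * d + p * s - b * c - q * r, p * c - a * r - q * d + b * s;
    (a * a + p * p + b * b + q * q - c * c - r * r - d * d - s * s) / 2,
      a * b + p * q - c * d - r * s, -(p * b - a * q - r * d + c * s),
      (a * a + p * p - b * b - q * q - c * c - r * r + d * d + s * s) / 2]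

noncomputable def lorL (A : Matrix (Fin 2) (Fin 2) ℂ) : Matrix (Fin 4) (Fin 4) ℝ :=
  lorR (A 0 0).re (A 0 0).im (A 0 1).re (A 0 1).im (A 1 0).re (A 1 0).im (A 1 1).re (A 1 1).im

/-- the reflection, or the identity -/
def lorC (b : Bool) : Matrix (Fin 4) (Fin 4) ℝ := diagonal ![1, 1, cond b (-1) 1, 1]

theorem lorL_mul (A B : Matrix (Fin 2) (Fin 2) ℂ) : lorL (A * B) = lorL A * lorL B := by
  simp only [lorL, Matrix.mul_apply, Fin.sum_univ_two, Complex.add_re, Complex.add_im,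
    Complex.mul_re, Complex.mul_im]
  ext i j
  fin_cases i <;> fin_cases j <;> simp [lorR, Matrix.mul_apply, Fin.sum_univ_four] <;> ring

theorem lorL_neg (A : Matrix (Fin 2) (Fin 2) ℂ) : lorL (-A) = lorL A := by
  simp [lorL, lorR]

theorem lorL_cj (b : Bool) (A : Matrix (Fin 2) (Fin 2) ℂ) :
    lorL (cj b A) = lorC b * lorL A * lorC b := by
  ext i j
  cases b <;> fin_cases i <;> fin_cases j <;> simp [lorL, lorR, lorC, cj] <;> ring

theorem lorC_mul (b c : Bool) : lorC b * lorC (xor b c) = lorC c := by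
  ext i j
  cases b <;> cases c <;> fin_cases i <;> fin_cases j <;> simp [lorC]

theorem lorC_J (b : Bool) : (lorC b)ᵀ * lorJ * lorC b = lorJ := by
  ext i j
  cases b <;> fin_cases i <;> fin_cases j <;> simp [lorC, lorJ]

theorem lorJ_sq : lorJ * lorJ = 1 := by
  ext i j
  fin_cases i <;> fin_cases j <;> simp [lorJ]

theorem lorR_J {a p b q c r d s : ℝ} (h1 : a * d - p * s - (b * c - q * r) = 1)
    (h2 : a * s + p * d - (b * r + q * c) = 0) :
    (lorR a p b q c r d s)ᵀ * lorJ * lorR a p b q c r d s = lorJ := by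
  have h : (a * d - p * s - (b * c - q * r)) ^ 2 + (a * s + p * d - (b * r + q * c)) ^ 2 = 1 := by
    rw [h1, h2]; norm_num
  ext i j
  fin_cases i <;> fin_cases j <;>
    simp [lorR, lorJ, Matrix.mul_apply, Fin.sum_univ_four, Matrix.diagonal_apply] <;>
    first | linear_combination h | linear_combination -h | ring

theorem det_parts {A : Matrix (Fin 2) (Fin 2) ℂ} (h : A.det = 1) :
    (A 0 0).re * (A 1 1).re - (A 0 0).im * (A 1 1).im -
      ((A 0 1).re * (A 1 0).re - (A 0 1).im * (A 1 0).im) = 1 ∧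
    (A 0 0).re * (A 1 1).im + (A 0 0).im * (A 1 1).re -
      ((A 0 1).re * (A 1 0).im + (A 0 1).im * (A 1 0).re) = 0 := by
  rw [det_fin_two] at h
  exact ⟨by simpa using congrArg Complex.re h, by simpa using congrArg Complex.im h⟩

theorem lor_J {A : Matrix (Fin 2) (Fin 2) ℂ} (h : A.det = 1) (b : Bool) :
    (lorL A * lorC b)ᵀ * lorJ * (lorL A * lorC b) = lorJ := by
  have := lorR_J (det_parts h).1 (det_parts h).2
  rw [transpose_mul, mul_assoc (lorC b)ᵀ, mul_assoc (lorC b)ᵀ, ← mul_assoc _ (lorL A), lorL, this,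
    ← mul_assoc, lorC_J]

theorem lor_pos {A : Matrix (Fin 2) (Fin 2) ℂ} (h : A.det = 1) (b : Bool) :
    0 < (lorL A * lorC b) 0 0 := by
  have := (det_parts h).1
  simp only [lorC, mul_diagonal, lorL, lorR, of_apply, cons_val', cons_val_zero, mul_one]
  nlinarith [sq_nonneg ((A 0 0).re - (A 1 1).re), sq_nonneg ((A 0 0).im + (A 1 1).im),
    sq_nonneg ((A 0 1).re + (A 1 0).re), sq_nonneg ((A 0 1).im - (A 1 0).im)]

theorem norm_le_of_sq {z : ℂ} {η : ℝ} (h0 : 0 ≤ η) (h : z.re * z.re + z.im * z.im ≤ η ^ 2) :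
    ‖z‖ ≤ η :=
  le_of_sq_le_sq (by rwa [← Complex.normSq_eq_norm_sq, Complex.normSq_apply]) h0

theorem lor_near {A : Matrix (Fin 2) (Fin 2) ℂ} (h : A.det = 1) {b : Bool} {η : ℝ} (h0 : 0 < η)
    (h1 : η ≤ 1) (hL : ∀ i j, |(lorL A * lorC b) i j - (1 : Matrix (Fin 4) (Fin 4) ℝ) i j| < η ^ 2 / 4) :
    b = false ∧ ((∀ i j, ‖A i j - (1 : Matrix (Fin 2) (Fin 2) ℂ) i j‖ < 5 * η) ∨
      ∀ i j, ‖A i j + (1 : Matrix (Fin 2) (Fin 2) ℂ) i j‖ < 5 * η) := by
  have a0 := abs_lt.1 (hL 0 0)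
  have a1 := abs_lt.1 (hL 1 1)
  have a2 := abs_lt.1 (hL 2 2)
  have a3 := abs_lt.1 (hL 3 3)
  have a4 := abs_lt.1 (hL 0 3)
  have a5 := abs_lt.1 (hL 3 0)
  have e : η ^ 2 ≤ 1 := by nlinarith
  cases b
  swap
  · exfalso
    simp [lorC, lorL, lorR] at a0 a1 a2 a3 a4 a5
    nlinarith [sq_nonneg ((A 0 1).re - (A 1 0).re), sq_nonneg ((A 0 1).im - (A 1 0).im)]
  refine ⟨rfl, ?_⟩
  simp [lorC, lorL, lorR] at a0 a1 a2 a3 a4 a5
  have nb : ‖A 0 1‖ ≤ η := norm_le_of_sq h0.le (by nlinarith)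
  have nc : ‖A 1 0‖ ≤ η := norm_le_of_sq h0.le (by nlinarith)
  have nd : ‖A 0 0 - A 1 1‖ ≤ η := norm_le_of_sq h0.le (by simp; nlinarith)
  have na : ‖A 0 0‖ ≤ 2 := norm_le_of_sq two_pos.le (by nlinarith)
  have k : ‖A 0 0 - 1‖ * ‖A 0 0 + 1‖ ≤ 3 * η := by
    rw [det_fin_two] at h
    rw [← norm_mul, show (A 0 0 - 1) * (A 0 0 + 1) = A 0 0 * (A 0 0 - A 1 1) + A 0 1 * A 1 0 by
      linear_combination h]
    refine (norm_add_le _ _).trans ?_
    rw [norm_mul, norm_mul]
    nlinarith [mul_le_mul na nd (norm_nonneg _) two_pos.le, mul_le_mul nb nc (norm_nonneg _) h0.le]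
  have t : 2 ≤ ‖A 0 0 - 1‖ + ‖A 0 0 + 1‖ := by
    have := norm_sub_le (A 0 0 + 1) (A 0 0 - 1)
    rw [show A 0 0 + 1 - (A 0 0 - 1) = 2 by ring, Complex.norm_two] at this
    linarith
  rcases le_total ‖A 0 0 - 1‖ ‖A 0 0 + 1‖ with c | c
  · have u : ‖A 0 0 - 1‖ ≤ 3 * η := by nlinarith [norm_nonneg (A 0 0 - 1)]
    have v := norm_sub_le (A 0 0 - 1) (A 0 0 - A 1 1)
    rw [show A 0 0 - 1 - (A 0 0 - A 1 1) = A 1 1 - 1 by ring] at v
    refine Or.inl fun i j => ?_
    fin_cases i <;> fin_cases j <;> simp <;> linarith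
  · have u : ‖A 0 0 + 1‖ ≤ 3 * η := by nlinarith [norm_nonneg (A 0 0 + 1)]
    have v := norm_sub_le (A 0 0 + 1) (A 0 0 - A 1 1)
    rw [show A 0 0 + 1 - (A 0 0 - A 1 1) = A 1 1 + 1 by ring] at v
    refine Or.inr fun i j => ?_
    fin_cases i <;> fin_cases j <;> simp <;> linarith

theorem stLOR : St_LOR := by
  rintro G _ tf A b hd hb hA ⟨ε, e0, he⟩
  have hm : ∀ g h, lorL (A (g * h)) * lorC (b (g * h)) =
      lorL (A g) * lorC (b g) * (lorL (A h) * lorC (b h)) := fun g h => by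
    have : lorL (A (g * h)) = lorL (A g * cj (b g) (A h)) := by
      rcases hA g h with e | e <;> rw [e]
      exact lorL_neg _
    rw [this, lorL_mul, lorL_cj, hb]
    simp only [mul_assoc, lorC_mul]
  let ρ : G →* Matrix (Fin 4) (Fin 4) ℝ :=
    { toFun := fun g => lorL (A g) * lorC (b g)
      map_mul' := hm
      map_one' := by
        have a := hm 1 1
        have c := lor_J (hd 1) (b 1)
        rw [mul_one] at a
        generalize lorL (A 1) * lorC (b 1) = R at a c
        have : lorJ * (Rᵀ * lorJ * R) = lorJ * (Rᵀ * lorJ * R) * R := by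
          simp only [mul_assoc]
          rw [← a]
        rw [c, lorJ_sq, one_mul] at this
        exact this.symm }
  set η := min (ε / 5) 1 with hη
  have η0 : 0 < η := lt_min (by positivity) one_pos
  have iso : ∀ g, (∀ i j, |ρ g i j - (1 : Matrix (Fin 4) (Fin 4) ℝ) i j| < η ^ 2 / 4) → g = 1 :=
    fun g h => by
      obtain ⟨c, d⟩ := lor_near (hd g) η0 (min_le_right _ _) h
      have : 5 * η ≤ ε := by linarith [min_le_left (ε / 5) 1]
      exact he g c (d.imp (fun d i j => (d i j).trans_le this) fun d i j => (d i j).trans_le this)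
  have inj : Function.Injective ρ.toHomUnits := (injective_iff_map_eq_one _).2 fun g h =>
    iso g fun i j => by
      rw [show ρ g = 1 from congrArg Units.val h]; simp; positivity
  refine ⟨ρ.toHomUnits.range, ?_, ?_, ?_, ⟨MonoidHom.ofInjective inj⟩⟩
  · rintro _ ⟨g, rfl⟩
    exact ⟨lor_J (hd g) _, lor_pos (hd g) _⟩
  · refine discreteTopology_of_isOpen_singleton_one ?_
    have : ({1} : Set ρ.toHomUnits.range) = ⋂ i, ⋂ j, {x | |(x.1 : Matrix (Fin 4) (Fin 4) ℝ) i j -
        (1 : Matrix (Fin 4) (Fin 4) ℝ) i j| < η ^ 2 / 4} := by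
      ext ⟨_, g, rfl⟩
      simp only [Set.mem_singleton_iff, Set.mem_iInter, Set.mem_ofPred_eq]
      refine ⟨fun h i j => ?_, fun h => Subtype.ext ?_⟩
      · rw [show ρ.toHomUnits g = 1 from congrArg Subtype.val h]; simp; positivity
      · rw [iso g h]; exact map_one _
    rw [this]
    exact isOpen_iInter_of_finite fun i => isOpen_iInter_of_finite fun j =>
      isOpen_lt (by fun_prop) continuous_const
  · rintro _ ⟨g, rfl⟩ h
    obtain ⟨n, hn, e⟩ := isOfFinOrder_iff_pow_eq_one.1 h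
    rw [tf g n hn (inj (by rw [map_pow, e, map_one])), map_one]

end Pool.Agent.Lib.FBC.RH
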