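import Pool.Agent.Lib.FBC.RH.Core

/-!
A word-hyperbolic group has no commuting pair `x, z` with `x` of infinite order in the kernel of
a homomorphism to the integers and `z` outside the kernel.
-/

namespace Pool.Agent.Lib.FBC.RH

open MulAction SimpleGraph

theorem quad' {G V : Type} [Group G] [MulAction G V] {K : SimpleGraph V}
    (hA : ∀ (g : G) a b, K.Adj a b → K.Adj (g • a) (g • b)) (hc : K.Connected) {δ M : ℕ}
    (hδ : ∀ x y z w : V, K.dist x y + K.dist z w ≤
      max (K.dist x z + K.dist y w) (K.dist x w + K.dist y z) + δ) (h : G) {v y : V}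
    (m1 : K.dist v (h • v) ≤ M) (m2 : K.dist y (h • y) ≤ M)
    (h1 : K.dist v y ≤ K.dist v (h • y))
    (h2 : K.dist v y ≤ K.dist y (h • v)) (h3 : 2 * M ≤ K.dist v y) :
    ∃ p : V, K.dist p (h • p) ≤ 3 * δ := by
  obtain ⟨p, p1, p2⟩ := mid hc y M v (by omega)
  have t := hc.dist_triangle (u := v) (v := p) (w := y)
  have a1 := hδ p (h • p) v y
  have a2 := hδ v (h • p) (h • v) (h • y)
  have a3 := hδ y (h • p) (h • y) (h • v)
  have a4 := hδ v (h • y) (h • v) y
  simp only [dist_smul hA hc] at a2 a3 a4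
  rw [dist_comm (u := p) (v := v), dist_comm (u := h • p), dist_comm (u := h • p)] at a1
  rw [dist_comm (u := p) (v := v)] at a2 a3
  rw [dist_comm (u := y) (v := v)] at a3 a4
  rw [dist_comm (u := h • v), dist_comm (u := h • y)] at a4
  exact ⟨p, by omega⟩

theorem ball_finite {G : Type} [Group G] (S : Finset G)
    (hc : (mulCayley (S : Set G)).Connected) :
    ∀ r : ℕ, {g : G | (mulCayley (S : Set G)).dist g 1 ≤ r}.Finite
  | 0 => (Set.finite_singleton 1).subset fun g h ↦ hc.dist_eq_zero_iff.1 (Nat.le_zero.1 h)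
  | r + 1 => by
    have ih := ball_finite S hc r
    refine ((Set.finite_singleton 1).union ((ih.image2 (fun a s ↦ a * s⁻¹) S.finite_toSet).union
      (ih.image2 (fun a s ↦ a * s) S.finite_toSet))).subset fun g h ↦ ?_
    by_cases e : g = 1
    · exact Or.inl e
    obtain ⟨a, a1, a2, -⟩ := first_step hc e
    have a3 : (mulCayley (S : Set G)).dist a 1 ≤ r := by
      have : (mulCayley (S : Set G)).dist g 1 ≤ r + 1 := h
      omega
    obtain ⟨-, s, s1, s2 | s2⟩ := (mulCayley_adj' _ _ _).1 a1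
    · exact Or.inr (Or.inl ⟨a, a3, s, s1, by simp [← s2]⟩)
    · exact Or.inr (Or.inr ⟨a, a3, s, s1, s2.symm⟩)

theorem not_wordHyp {G : Type} [Group G] (d : G →* Multiplicative ℤ) {x z : G}
    (xz : Commute x z) (hx : d x = 1) (xi : ¬IsOfFinOrder x) (hz : d z ≠ 1) : ¬WordHyp G := by
  rintro ⟨S, -, hc, δ, hδ⟩
  set K := mulCayley (S : Set G) with hK
  have hA : ∀ (g : G) a b, K.Adj a b → K.Adj (g • a) (g • b) := fun g a b h ↦
    mulCayley_adj_mul_iff_right.2 h
  have pr : ∀ r : ℕ, {g : G | K.dist 1 g ≤ r}.Finite := fun r ↦ by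
    simpa only [dist_comm (u := (1 : G))] using ball_finite S hc r
  have zi : ¬IsOfFinOrder (d z) := fun h ↦ hz (by
    obtain ⟨n, n0, h⟩ := isOfFinOrder_iff_pow_eq_one.1 h
    exact (pow_eq_one_iff_left n0.ne').1 h)
  have zj := injective_zpow_iff_not_isOfFinOrder.2 zi
  obtain ⟨_, ⟨j, rfl⟩, hj⟩ := (Set.infinite_range_of_injective zj).exists_notMem_finite
    ((pr (3 * δ)).image d)
  have ml : ∀ i m n : ℤ, z ^ m * (x ^ i * z ^ n) = x ^ i * z ^ (m + n) := fun i m n ↦ by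
    rw [← mul_assoc, (xz.symm.zpow_zpow m i).eq, mul_assoc, zpow_add]
  have b2 : ∀ i : ℤ, ∃ n : ℤ, K.dist 1 (x ^ i * z ^ n) ≤ 2 * K.dist 1 (z ^ j) := fun i ↦ by
    obtain ⟨n, hn⟩ := exists_minimalFor_of_wellFoundedLT (fun _ ↦ True)
      (fun n : ℤ ↦ K.dist 1 (x ^ i * z ^ n)) ⟨0, trivial⟩
    have hn : ∀ m : ℤ, K.dist 1 (x ^ i * z ^ n) ≤ K.dist 1 (x ^ i * z ^ m) :=
      fun m ↦ hn.le trivial
    refine ⟨n, le_of_not_ge fun h ↦ ?_⟩
    obtain ⟨p, hp⟩ := quad' hA hc hδ (z ^ j) (v := 1) (y := x ^ i * z ^ n)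
      (M := K.dist 1 (z ^ j)) (by simp) (by
        rw [← dist_smul hA hc (x ^ i * z ^ n) 1 (z ^ j), smul_eq_mul, smul_eq_mul, smul_eq_mul,
          mul_one, ml, mul_assoc, ← zpow_add, add_comm])
      (by rw [smul_eq_mul, ml]; exact hn _) (by
        rw [← dist_smul hA hc (z ^ (-j)) _ (z ^ j • 1), smul_eq_mul, ml, dist_comm (v := _ • _)]
        simpa using hn _) h
    refine hj ⟨p⁻¹ * (z ^ j * p), ?_, by simp⟩
    rw [← dist_smul hA hc p⁻¹] at hp
    simpa using hp
  choose n hn using b2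
  refine Set.infinite_range_of_injective (f := fun i ↦ x ^ i * z ^ n i) (fun a b h ↦ ?_)
    ((pr _).subset (by rintro _ ⟨i, rfl⟩; exact hn i))
  have e : n a = n b := zj (by simpa [hx] using congrArg d h)
  simp only [e, mul_left_inj] at h
  exact injective_zpow_iff_not_isOfFinOrder.2 xi h

end Pool.Agent.Lib.FBC.RH
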